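import Mathlib
import Pool.Agent.W34.Mix.Main

set_option autoImplicit false

open MeasureTheory ProbabilityTheory Filter Topology

namespace Pool.Agent.Results.MP_3c7ff8_pr.ErgodicMixing

open Pool.Agent.H443R3 Pool.Agent.W34

/-- The unique invariant measure `π` of every ergodic probabilistic cellular automaton is
shift-invariant and spatially mixing, and in fact mixing of all orders. -/
theorem result {d : ℕ} {S : Type} [Finite S] [TopologicalSpace S] [DiscreteTopology S]
    [MeasurableSpace S] [MeasurableSingletonClass S] (Φ : PCA d S) (π : Measure (Config d S))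
    (h : ErgodicWith Φ π) :
    (∀ k : Site d, π.map (shift k) = π) ∧
    -- spatial mixing, as in the question: `‖k‖ → ∞` is the filter `cofinite` on `ℤ^d`
    (∀ (A B : Finset (Site d)) (u : A → S) (v : B → S),
      Tendsto (fun k : Site d => π (cyl A u ∩ shift k ⁻¹' cyl B v)) cofinite
        (𝓝 (π (cyl A u) * π (cyl B v)))) ∧
    -- spatial mixing of every order `m`
    (∀ (m : ℕ) (A : Fin m → Finset (Site d)) (u : ∀ i, A i → S) (ε : ℝ), 0 < ε →
      ∃ R : ℝ, ∀ k : Fin m → Site d, (∀ i j, i ≠ j → R ≤ ‖k i - k j‖) →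
        |(π (⋂ i, shift (k i) ⁻¹' cyl (A i) (u i))).toReal -
          ∏ i, (π (cyl (A i) (u i))).toReal| < ε) :=
  ⟨Mix.shift_invariant h, Mix.mixing_two h, fun _ A u ε hε => Mix.mixing h A u ε hε⟩

end Pool.Agent.Results.MP_3c7ff8_pr.ErgodicMixing
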